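import Pool.Agent.H41.CL.Defs

set_option autoImplicit false

namespace Pool.Agent.H402.CL

open Pool.Agent.H41.CL Finset

variable {k : ℕ} (τ : Q k ≃ P k)

lemma mate_tau (q : Q k) : mate τ (τ q) = τ (q.1, !q.2) := by
  simp [mate]

lemma mate_mate (p : P k) : mate τ (mate τ p) = p := by
  simp [mate]

lemma mate_ne (p : P k) : mate τ p ≠ p := by
  intro h
  obtain ⟨q, rfl⟩ := τ.surjective p
  rw [mate_tau] at h
  have h2 := τ.injective h
  have h3 : (!q.2) = q.2 := congrArg Prod.snd h2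
  revert h3
  cases q.2 <;> decide

variable {τ}

lemma no_loop (hs : Simple τ) (p : P k) : p.1 ≠ (mate τ p).1 := by
  intro h
  have h2 := hs p (mate τ p) (mate_ne τ p).symm h
  rw [mate_mate] at h2
  exact h2 h.symm

lemma adj_iff (hs : Simple τ) (u v : Fin (2 * k)) :
    (Gr τ).Adj u v ↔ ∃ p : P k, p.1 = u ∧ (mate τ p).1 = v := by
  rw [Gr, SimpleGraph.fromRel_adj]
  constructor
  · rintro ⟨-, h | ⟨p, h1, h2⟩⟩
    · exact h
    · exact ⟨mate τ p, h2, by rw [mate_mate]; exact h1⟩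
  · rintro ⟨p, rfl, rfl⟩
    exact ⟨no_loop hs p, Or.inl ⟨p, rfl, rfl⟩⟩

lemma adj_iff' (hs : Simple τ) (u v : Fin (2 * k)) :
    (Gr τ).Adj u v ↔ ∃ (i : Fin (3 * k)) (b : Bool), (τ (i, b)).1 = u ∧ (τ (i, !b)).1 = v := by
  rw [adj_iff hs]
  constructor
  · rintro ⟨p, h1, h2⟩
    obtain ⟨⟨i, b⟩, rfl⟩ := τ.surjective p
    rw [mate_tau] at h2
    exact ⟨i, b, h1, h2⟩
  · rintro ⟨i, b, h1, h2⟩
    exact ⟨τ (i, b), h1, by rw [mate_tau]; exact h2⟩

lemma cubic_Gr (hs : Simple τ) : Cubic (Gr τ) := by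
  intro v
  have h : (Gr τ).neighborSet v = Set.range (fun i : Fin 3 => (mate τ (v, i)).1) := by
    ext w
    rw [SimpleGraph.mem_neighborSet, adj_iff hs]
    constructor
    · rintro ⟨⟨a, i⟩, h1, h2⟩
      have h1' : a = v := h1
      subst h1'
      exact ⟨i, h2⟩
    · rintro ⟨i, h⟩
      exact ⟨(v, i), rfl, h⟩
  have hinj : Function.Injective (fun i : Fin 3 => (mate τ (v, i)).1) := by
    intro i i' h
    by_contra hne
    exact hs (v, i) (v, i') (by simpa using hne) rfl h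
  rw [h, ← Set.image_univ, Set.ncard_image_of_injective _ hinj, Set.ncard_univ]
  simp

/-- the edge map -/
def em (τ : Q k ≃ P k) (i : Fin (3 * k)) : Sym2 (Fin (2 * k)) :=
  s((τ (i, false)).1, (τ (i, true)).1)

lemma em_inj (hs : Simple τ) : Function.Injective (em τ) := by
  intro i i' h
  by_contra hne
  unfold em at h
  rw [Sym2.eq_iff] at h
  rcases h with ⟨h1, h2⟩ | ⟨h1, h2⟩
  · refine hs (τ (i, false)) (τ (i', false)) (fun h => hne ?_) h1 ?_
    · exact congrArg Prod.fst (τ.injective h)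
    · rw [mate_tau, mate_tau]; exact h2
  · refine hs (τ (i, false)) (τ (i', true)) (fun h => hne ?_) h1 ?_
    · exact congrArg Prod.fst (τ.injective h)
    · rw [mate_tau, mate_tau]; exact h2

lemma cut_count (hs : Simple τ) (X : Finset (Fin (2 * k))) :
    (cutS (Gr τ) X).ncard = cutT τ X := by
  have h : cutS (Gr τ) X = em τ '' ((univ.filter (fun i : Fin (3 * k) =>
      ¬ ((τ (i, false)).1 ∈ X ↔ (τ (i, true)).1 ∈ X)) : Finset (Fin (3 * k))) : Set _) := by
    ext e
    constructor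
    · rintro ⟨x, y, hx, hy, ha, rfl⟩
      rw [adj_iff' hs] at ha
      obtain ⟨i, b, rfl, rfl⟩ := ha
      refine ⟨i, ?_, ?_⟩
      · simp only [coe_filter, mem_univ, true_and, Set.mem_ofPred_eq]
        intro hh
        cases b
        · exact hy (hh.1 hx)
        · exact hy (hh.2 hx)
      · cases b
        · rfl
        · exact Sym2.eq_swap
    · rintro ⟨i, hi, rfl⟩
      simp only [coe_filter, mem_univ, true_and, Set.mem_ofPred_eq] at hi
      by_cases hx : (τ (i, false)).1 ∈ X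
      · have hy : (τ (i, true)).1 ∉ X := fun hy => hi ⟨fun _ => hy, fun _ => hx⟩
        exact ⟨_, _, hx, hy, (adj_iff' hs _ _).2 ⟨i, false, rfl, rfl⟩, rfl⟩
      · have hy : (τ (i, true)).1 ∈ X := by
          by_contra hy
          exact hi ⟨fun h => absurd h hx, fun h => absurd h hy⟩
        exact ⟨_, _, hy, hx, (adj_iff' hs _ _).2 ⟨i, true, rfl, rfl⟩, Sym2.eq_swap⟩
  rw [h, Set.ncard_image_of_injective _ (em_inj hs), Set.ncard_coe_finset, cutT]

lemma uncut_count (hs : Simple τ) (X : Finset (Fin (2 * k))) :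
    (uncutS (Gr τ) X).ncard = uncutT τ X := by
  have h : uncutS (Gr τ) X = em τ '' ((univ.filter (fun i : Fin (3 * k) =>
      ((τ (i, false)).1 ∈ X ↔ (τ (i, true)).1 ∈ X)) : Finset (Fin (3 * k))) : Set _) := by
    ext e
    constructor
    · rintro ⟨x, y, hxy, ha, rfl⟩
      rw [adj_iff' hs] at ha
      obtain ⟨i, b, rfl, rfl⟩ := ha
      refine ⟨i, ?_, ?_⟩
      · simp only [coe_filter, mem_univ, true_and, Set.mem_ofPred_eq]
        cases b
        · exact hxy
        · exact hxy.symm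
      · cases b
        · rfl
        · exact Sym2.eq_swap
    · rintro ⟨i, hi, rfl⟩
      simp only [coe_filter, mem_univ, true_and, Set.mem_ofPred_eq] at hi
      exact ⟨_, _, hi, (adj_iff' hs _ _).2 ⟨i, false, rfl, rfl⟩, rfl⟩
  rw [h, Set.ncard_image_of_injective _ (em_inj hs), Set.ncard_coe_finset, uncutT]

theorem t_GR : S_GR := by
  intro k τ hs
  exact ⟨cubic_Gr hs, fun X => ⟨cut_count hs X, uncut_count hs X⟩⟩

end Pool.Agent.H402.CL
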